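import Pool.Agent.R280.KKMain
import Pool.Agent.R280.KKOrd

/-!
# MP_6ed805_an, Q1

Uniform stable phase retrieval constants for self-embeddings of `C[1, ω^α]`.
-/

set_option autoImplicit false

open Set Ordinal

namespace Pool.Agent.Results.MP_6ed805_an.UniformSPR

open Pool.Agent.R280.Spr

/-- the space `C[1, γ]` of the continuous real functions on the ordinal interval `[1, γ]` -/
abbrev COrd (γ : Ordinal.{0}) : Type 1 := C(Set.Icc (1 : Ordinal.{0}) γ, ℝ)

/-- `E` does `C`-stable phase retrieval -/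
def IsSPR {γ : Ordinal.{0}} (C : ℝ) (E : Set (COrd γ)) : Prop :=
  ∀ f ∈ E, ∀ g ∈ E, min ‖f - g‖ ‖f + g‖ ≤ C * ‖|f| - |g|‖

/-- For every finite `α ≥ 3` there is a linear isometric embedding `T` of `C[1, ω^α]` into itself
whose range is closed and does `30`-stable phase retrieval. -/
theorem result (α : ℕ) (hα : 3 ≤ α) :
    ∃ T : COrd (ω ^ (α : Ordinal.{0})) →ₗᵢ[ℝ] COrd (ω ^ (α : Ordinal.{0})),
      IsClosed (range T) ∧ IsSPR 30 (range T) := by
  obtain ⟨m, rfl⟩ : ∃ m, α = m + 1 := ⟨α - 1, by omega⟩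
  have key : ∀ o : Ordinal.{0}, o = ω ^ (m + 1) → Nonempty (Set.Icc (1 : Ordinal.{0}) o ≃ₜ
      KK (m + 1)) := by
    rintro o rfl
    obtain ⟨h⟩ := exists_homeo (m + 1)
    exact ⟨h.symm⟩
  obtain ⟨e⟩ := key (ω ^ ((m + 1 : ℕ) : Ordinal.{0})) (opow_natCast _ _)
  obtain ⟨T, hT⟩ := exists_spr m (by omega) e
  exact ⟨T, T.isometry.isClosedEmbedding.isClosed_range, hT⟩

end Pool.Agent.Results.MP_6ed805_an.UniformSPR
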